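import Mathlib

set_option autoImplicit false

namespace Pool.Agent.H.MP_94c136_al

open Pointwise

/-- pointwise convergence on the group of all permutations of the natural numbers -/
scoped instance : TopologicalSpace (Equiv.Perm ℕ) :=
  .induced (fun g => (g : ℕ → ℕ)) inferInstance

variable (G : Type) [Group G] [TopologicalSpace G]

/-- pointwise convergence of the action on the left cosets of open subgroups -/
scoped instance : TopologicalSpace (MulAut G) :=
  ⨅ (U : OpenSubgroup G) (g : G), .induced (fun α => α '' (g • (U : Set G))) ⊥

/-- the automorphisms that are homeomorphisms -/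
def Aut : Subgroup (MulAut G) where
  carrier := {α | Continuous α ∧ Continuous α.symm}
  one_mem' := ⟨continuous_id, continuous_id⟩
  mul_mem' h k := ⟨h.1.comp k.1, k.2.comp h.2⟩
  inv_mem' h := ⟨h.2, h.1⟩

/-- the outer automorphism group, with the quotient topology -/
abbrev Out := Aut G ⧸ (MulAut.conj (G := G)).range.subgroupOf (Aut G)

end Pool.Agent.H.MP_94c136_al
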