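import Mathlib
import Pool.Agent.H.MP_94c136_al.Defs

set_option autoImplicit false

namespace Pool.Agent.H.MP_94c136_al

open Equiv Finset Pointwise

noncomputable def e : ℕ ≃ Finset (Finset ℕ) × ℕ := (Denumerable.eqv _).symm

noncomputable def c (S : Finset ℕ) : ZMod 2 := if S.erase (S.sup id) ∈ (e (S.sup id)).1 then 1 else 0

lemma ext (T : Finset ℕ) (f : Finset ℕ → ZMod 2) :
    ∃ y, (∀ t ∈ T, t < y) ∧ ∀ S ⊆ T, c (insert y S) = f S := by
  obtain ⟨_, ⟨N, rfl⟩, hy⟩ := (Set.infinite_range_of_injective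
    (f := fun N => e.symm (T.powerset.filter (f · = 1), N))
    fun a b h => by simpa using h).exists_gt (T.sup id)
  dsimp only at hy
  have lt : ∀ t ∈ T, t < _ := fun t ht => (le_sup (f := id) ht).trans_lt hy
  refine ⟨_, lt, fun S hS => ?_⟩
  have : (insert (e.symm (T.powerset.filter (f · = 1), N)) S).sup id =
      e.symm (T.powerset.filter (f · = 1), N) := by
    rw [sup_insert]
    exact sup_eq_left.2 (Finset.sup_le fun t ht => (lt t (hS ht)).le)
  rw [c, this, erase_insert fun h => (lt _ (hS h)).false]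
  simp only [apply_symm_apply, mem_filter, mem_powerset, hS, true_and]
  generalize f S = t
  revert t; decide

def V (S : Finset ℕ) : Prop := ∀ x ∈ S, 2 ≤ x

structure Cd (ε : ℕ → ZMod 2) where
  A : Finset ℕ
  g : Perm ℕ
  m : 0 ∈ A ∧ 1 ∈ A
  f : g 0 = 0 ∧ g 1 = 1
  h : ∀ S ⊆ A, V S → c (S.image g) - c S = ε S.card

instance (ε : ℕ → ZMod 2) : Preorder (Cd ε) where
  le p q := p.A ⊆ q.A ∧ ∀ x ∈ p.A, q.g x = p.g x
  le_refl _ := ⟨subset_rfl, fun _ _ => rfl⟩
  le_trans _ _ _ a b := ⟨a.1.trans b.1, fun x h => (b.2 x (a.1 h)).trans (a.2 x h)⟩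

lemma forth {ε : ℕ → ZMod 2} (p : Cd ε) (x : ℕ) : ∃ q, p ≤ q ∧ x ∈ q.A := by
  by_cases hx : x ∈ p.A
  · exact ⟨p, le_rfl, hx⟩
  obtain ⟨y, h1, h2⟩ := ext (p.A.image p.g)
    fun T => c (insert x (T.image p.g.symm)) + ε (T.card + 1)
  have k : ∀ a ∈ p.A, (swap (p.g x) y * p.g) a = p.g a := fun a ha =>
    swap_apply_of_ne_of_ne (p.g.injective.ne (ne_of_mem_of_not_mem ha hx))
      (h1 _ (mem_image_of_mem _ ha)).ne
  refine ⟨⟨insert x p.A, swap (p.g x) y * p.g, ⟨mem_insert_of_mem p.m.1, mem_insert_of_mem p.m.2⟩,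
    ⟨(k _ p.m.1).trans p.f.1, (k _ p.m.2).trans p.f.2⟩, fun S hS hV => ?_⟩,
    ⟨subset_insert _ _, k⟩, mem_insert_self _ _⟩
  by_cases h : x ∈ S
  · obtain ⟨S, hS', rfl⟩ : ∃ T, x ∉ T ∧ insert x T = S := ⟨_, notMem_erase _ _, insert_erase h⟩
    have : S ⊆ p.A := (subset_insert_iff_of_notMem hS').1 ((subset_insert _ _).trans hS)
    rw [image_insert, image_congr fun a ha => k a (this ha), Perm.mul_apply, swap_apply_left,
      h2 _ (image_subset_image this), card_image_of_injective _ p.g.injective, image_image,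
      card_insert_of_notMem hS']
    simp
  · have : S ⊆ p.A := (subset_insert_iff_of_notMem h).1 hS
    rw [image_congr fun a ha => k a (this ha), p.h S this hV]

lemma two {g : Perm ℕ} (f : g 0 = 0 ∧ g 1 = 1) (x : ℕ) : g x < 2 ↔ x < 2 := by
  have a := g.injective.eq_iff' f.1 (a := x)
  have b := g.injective.eq_iff' f.2 (a := x)
  omega

def Cd.inv {ε : ℕ → ZMod 2} (p : Cd ε) : Cd (-ε) where
  A := p.A.image p.g
  g := p.g⁻¹
  m := ⟨p.f.1 ▸ mem_image_of_mem _ p.m.1, p.f.2 ▸ mem_image_of_mem _ p.m.2⟩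
  f := ⟨Perm.inv_eq_iff_eq.2 p.f.1.symm, Perm.inv_eq_iff_eq.2 p.f.2.symm⟩
  h S hS hV := by
    obtain ⟨T, hT, rfl⟩ := subset_image_iff.1 hS
    have := p.h T hT fun x hx => not_lt.1 fun h =>
      (hV _ (mem_image_of_mem _ hx)).not_gt ((two p.f x).2 h)
    rw [image_image, card_image_of_injective _ p.g.injective, Pi.neg_apply, ← this]
    simp

lemma back {ε : ℕ → ZMod 2} (p : Cd ε) (y : ℕ) : ∃ q, p ≤ q ∧ y ∈ q.A.image q.g := by
  obtain ⟨q, h1, h2⟩ := forth p.inv y
  have k : ∀ x ∈ p.A, q.g (p.g x) = x := fun x hx => by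
    rw [h1.2 _ (mem_image_of_mem _ hx)]; simp [Cd.inv]
  refine ⟨⟨q.inv.A, q.inv.g, q.inv.m, q.inv.f, by simpa using q.inv.h⟩, ⟨fun x hx => ?_,
    fun x hx => Perm.inv_eq_iff_eq.2 (k x hx).symm⟩, ?_⟩
  · exact mem_image.2 ⟨_, h1.1 (mem_image_of_mem _ hx), k x hx⟩
  · simpa [Cd.inv, image_image] using h2

lemma lim {ε : ℕ → ZMod 2} (p : Cd ε) : ∃ g : Perm ℕ, (∀ x ∈ p.A, g x = p.g x) ∧
    ∀ S, V S → c (S.image g) - c S = ε S.card := by
  let E : ℕ ⊕ ℕ → Order.Cofinal (Cd ε) := Sum.elim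
    (fun x => ⟨{q | x ∈ q.A}, fun p => (forth p x).imp fun _ => And.symm⟩)
    fun y => ⟨{q | y ∈ q.A.image q.g}, fun p => (back p y).imp fun _ => And.symm⟩
  have mo := Order.sequenceOfCofinals.monotone p E
  set s := Order.sequenceOfCofinals p E
  have d : ∀ x, ∃ n, x ∈ (s n).A := fun x => ⟨_, Order.sequenceOfCofinals.encode_mem p E (.inl x)⟩
  have r : ∀ y, ∃ n, y ∈ (s n).A.image (s n).g := fun y =>
    ⟨_, Order.sequenceOfCofinals.encode_mem p E (.inr y)⟩
  choose N hN using d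
  have k : ∀ n, ∀ x ∈ (s n).A, (s (N x)).g x = (s n).g x := fun n x hx =>
    ((mo (le_max_left _ n)).2 x (hN x)).symm.trans ((mo (le_max_right _ n)).2 x hx)
  have all : ∀ S : Finset ℕ, S ⊆ (s (S.sup N)).A := fun S x hx => (mo (le_sup hx)).1 (hN x)
  refine ⟨ofBijective (fun x => (s (N x)).g x) ⟨fun a b h => ?_, fun y => ?_⟩, k 0, fun S hV => ?_⟩
  · apply (s (({a, b} : Finset ℕ).sup N)).g.injective
    rw [← k _ a (all _ (by simp)), ← k _ b (all _ (by simp))]; exact h
  · obtain ⟨n, hn⟩ := r y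
    obtain ⟨x, hx, rfl⟩ := mem_image.1 hn
    exact ⟨x, k n x hx⟩
  · rw [← (s _).h S (all S) hV]
    congr 2
    exact image_congr fun x hx => k _ x (all S hx)

noncomputable def χ (n : ℕ) (g : Perm ℕ) : ZMod 2 := c ((Ico 2 (n + 2)).image g) - c (Ico 2 (n + 2))

lemma VI (n : ℕ) : V (Ico 2 (n + 2)) := fun _ h => (mem_Ico.1 h).1

lemma Vim {g : Perm ℕ} (h : ∀ x, g x < 2 ↔ x < 2) {S : Finset ℕ} (hS : V S) : V (S.image g) :=
  fun x hx => by
    obtain ⟨y, hy, rfl⟩ := mem_image.1 hx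
    exact not_lt.1 fun q => (hS y hy).not_gt ((h y).1 q)

lemma mk {g : Perm ℕ} {ε : ℕ → ZMod 2} (h : ∀ S, V S → c (S.image g) - c S = ε S.card) (n : ℕ) :
    χ n g = ε n := by simpa using! h _ (VI n)

def G : Subgroup (Perm ℕ) where
  carrier := {g | (∀ x, g x < 2 ↔ x < 2) ∧ ∃ ε : ℕ → ZMod 2,
    ∀ S, V S → c (S.image g) - c S = ε S.card}
  one_mem' := ⟨by simp, 0, by simp⟩
  mul_mem' := fun {g h} ⟨a, ε, p⟩ ⟨b, δ, q⟩ => ⟨fun x => (a _).trans (b x), ε + δ, fun S hS => by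
    have := p _ (Vim b hS)
    rw [image_image, card_image_of_injective _ h.injective] at this
    rw [Pi.add_apply, ← this, ← q S hS, Perm.coe_mul]; ring⟩
  inv_mem' := fun {g} ⟨a, ε, p⟩ => by
    have b : ∀ x, g⁻¹ x < 2 ↔ x < 2 := fun x => by simpa using (a (g⁻¹ x)).symm
    refine ⟨b, -ε, fun S hS => ?_⟩
    have := p _ (Vim b hS)
    rw [image_image, card_image_of_injective _ g⁻¹.injective] at this
    rw [Pi.neg_apply, ← this]; simp

lemma χ_mul (n : ℕ) (g h : G) : χ n (g * h) = χ n g + χ n h := by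
  obtain ⟨a, ε, p⟩ := g.2
  have := p _ (Vim h.2.1 (VI n))
  rw [image_image, card_image_of_injective _ h.1.injective, Nat.card_Ico, Nat.add_sub_cancel,
    ← mk p] at this
  rw [← this, χ, χ, Perm.coe_mul]; ring

lemma lc {Y : Type} (F : Perm ℕ → Y) (T : Finset ℕ)
    (h : ∀ g k : Perm ℕ, (∀ x ∈ T, g x = k x) → F g = F k) : IsLocallyConstant F := by
  refine (IsLocallyConstant.iff_eventually_eq _).2 fun g => ?_
  have : ∀ᶠ k : Perm ℕ in nhds g, ∀ x ∈ T, k x = g x := (Filter.eventually_all_finset _).2 fun x _ =>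
    (show Continuous fun k : Perm ℕ => k x from
      (continuous_apply x).comp continuous_induced_dom).continuousAt.eventually
      (p := fun y => y = g x) (by simp)
  exact this.mono fun k hk => h k g hk

lemma lcχ (n : ℕ) : IsLocallyConstant (χ n) :=
  lc _ (Ico 2 (n + 2)) fun g k h => by rw [χ, χ, image_congr h]

lemma closed : IsClosed (G : Set (Perm ℕ)) := by
  have : (G : Set (Perm ℕ)) = (⋂ x, {g : Perm ℕ | g x < 2 ↔ x < 2}) ∩
      ⋂ S, {g : Perm ℕ | V S → c (S.image g) - c S = χ S.card g} := by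
    ext g
    simp only [Set.mem_inter_iff, Set.mem_iInter, Set.mem_setOf_eq]
    exact and_congr_right fun _ => ⟨fun ⟨ε, p⟩ S hS => by rw [p S hS, mk p], fun p => ⟨(χ · g), p⟩⟩
  rw [this]
  refine (isClosed_iInter fun x => ?_).inter (isClosed_iInter fun S => ?_)
  · simpa using! (lc (fun g => g x < 2 ↔ x < 2) {x} (by simp +contextual)).isClosed_fiber True
  · simpa using! (lc (fun g => V S → c (S.image g) - c S = χ S.card g) (S ∪ Ico 2 (S.card + 2))
      fun g k h => by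
        rw [χ, χ, image_congr fun x hx => h x (mem_union_left _ hx),
          image_congr fun x hx => h x (mem_union_right _ hx)]).isClosed_fiber True

lemma oligo (n : ℕ) : Finite (MulAction.orbitRel.Quotient G (Fin n → ℕ)) := by
  classical
  let τ : (Fin n → ℕ) → (Fin n → Fin n → Prop) × (Fin n → Fin 2 → Prop) ×
      (Finset (Fin n) → ZMod 2) := fun a =>
    (fun i j => a i = a j, fun i j => a i = j, fun s => c (s.image a))
  refine Finite.of_surjective (fun t : Set.range τ => Quotient.mk _ t.2.choose) fun q => ?_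
  obtain ⟨b, rfl⟩ := q.exists_rep
  refine ⟨⟨_, b, rfl⟩, Quotient.sound ?_⟩
  have := (⟨b, rfl⟩ : τ b ∈ Set.range τ).choose_spec
  generalize (⟨b, rfl⟩ : τ b ∈ Set.range τ).choose = a at this ⊢
  simp only [τ, Prod.mk.injEq, funext_iff, eq_iff_iff, Fin.forall_fin_two] at this
  obtain ⟨h1, h2, h3⟩ := this
  let A : Finset ℕ := insert 0 (insert 1 (univ.image b))
  let φ : ℕ → ℕ := fun x => if h : ∃ i, b i = x then a h.choose else x
  have hφ : ∀ i, φ (b i) = a i := fun i => by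
    have h : ∃ j, b j = b i := ⟨i, rfl⟩
    exact (dif_pos h).trans ((h1 _ _).2 h.choose_spec)
  have φ0 : φ 0 = 0 := by
    by_cases h : ∃ i, b i = 0
    · exact (dif_pos h).trans ((h2 _).1.2 h.choose_spec)
    · exact dif_neg h
  have φ1 : φ 1 = 1 := by
    by_cases h : ∃ i, b i = 1
    · exact (dif_pos h).trans ((h2 _).2.2 h.choose_spec)
    · exact dif_neg h
  obtain ⟨σ, hσ⟩ := Perm.exists_extending_pair (f := (Subtype.val : A → ℕ)) (g := fun x => φ x)
    Subtype.val_injective (by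
      rintro ⟨x, hx⟩ ⟨y, hy⟩
      simp only [A, mem_insert, mem_image, mem_univ, true_and] at hx hy
      have p0 : ∀ i, a i = 0 ↔ b i = 0 := fun i => (h2 i).1
      have p1 : ∀ i, a i = 1 ↔ b i = 1 := fun i => (h2 i).2
      rw [Subtype.mk.injEq]
      rcases hx with rfl | rfl | ⟨i, rfl⟩ <;> rcases hy with rfl | rfl | ⟨j, rfl⟩ <;>
        simp only [φ0, φ1, hφ] <;> intro q
      exacts [trivial, q, ((p0 _).1 q.symm).symm, q, trivial, ((p1 _).1 q.symm).symm, (p0 _).1 q,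
        (p1 _).1 q, (h1 _ _).1 q])
  have hb : ∀ i, σ (b i) = a i := fun i => (hσ ⟨_, by simp [A]⟩).trans (hφ i)
  have f : σ 0 = 0 ∧ σ 1 = 1 := ⟨(hσ ⟨_, by simp [A]⟩).trans φ0, (hσ ⟨_, by simp [A]⟩).trans φ1⟩
  obtain ⟨g, g1, g2⟩ := lim (ε := 0) ⟨A, σ, by simp [A], f, fun S hS hV => by
    have : S ⊆ univ.image b := fun x hx => by
      have := hS hx
      have := hV x hx
      simp only [A, mem_insert] at *
      rcases ‹_ ∨ _› with rfl | rfl | h <;> simp_all
    obtain ⟨s, -, rfl⟩ := subset_image_iff.1 this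
    rw [image_image, show σ ∘ b = a from funext hb, h3]; simp⟩
  exact ⟨⟨g, two ⟨(g1 0 (by simp [A])).trans f.1, (g1 1 (by simp [A])).trans f.2⟩, 0, g2⟩,
    funext fun i => (g1 _ (by simp [A])).trans (hb i)⟩

lemma sw {S : Finset ℕ} (hS : V S) : S.image (swap 0 1) = S :=
  (image_congr (g := id) fun x hx => swap_apply_of_ne_of_ne (x := x) (by have := hS x hx; omega)
    (by have := hS x hx; omega)).trans image_id

def z : G := ⟨swap 0 1, fun x => by
  rw [swap_apply_def]; split_ifs <;> omega, 0, fun S hS => by simp [sw hS]⟩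

lemma zc (g : G) : z * g = g * z := by
  have a := (g.2.1 0).2 (by omega)
  have b := (g.2.1 1).2 (by omega)
  have d := g.1.injective.ne (zero_ne_one (α := ℕ))
  apply Subtype.ext
  change swap 0 1 * g.1 = g.1 * swap 0 1
  rw [mul_swap_eq_swap_mul]
  obtain h | h : g.1 0 = 0 ∧ g.1 1 = 1 ∨ g.1 0 = 1 ∧ g.1 1 = 0 := by omega
  · rw [h.1, h.2]
  · rw [h.1, h.2, swap_comm]

def zp (t : ZMod 2) : G := if t = 0 then 1 else z

lemma zz : z * z = 1 := Subtype.ext (swap_mul_self _ _)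

lemma zp_add (s t : ZMod 2) : zp (s + t) = zp s * zp t := by
  fin_cases s <;> fin_cases t <;> simp [zp, zz] <;> rfl

lemma zpc (t : ZMod 2) (g : G) : zp t * g = g * zp t := by
  unfold zp; split_ifs <;> simp [zc]

lemma χzp (n : ℕ) (t : ZMod 2) : χ n (zp t) = 0 := by
  unfold zp; split_ifs
  · simp [χ]
  · simp [χ, z, sw (VI n)]

lemma inv (n : ℕ) : Function.Involutive fun g : G => g * zp (χ n g) := fun g => by
  have : ∀ t : ZMod 2, t + t = 0 := by decide
  simp only [Subgroup.coe_mul, χ_mul, χzp, add_zero, mul_assoc, ← zp_add, this]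
  simp [zp]

noncomputable def α (n : ℕ) : MulAut G :=
  { (inv n).toPerm with
    map_mul' := fun g h => by
      change g * h * zp (χ n (g * h)) = g * zp _ * (h * zp _)
      rw [χ_mul, zp_add, mul_assoc, mul_assoc, ← mul_assoc (zp _), zpc _ h, mul_assoc] }

lemma cα (n : ℕ) : Continuous fun g : G => g * zp (χ n g) := by
  refine Continuous.subtype_mk (continuous_induced_rng.2 (continuous_pi fun x => ?_)) _
  exact (lc (fun g => g ((zp (χ n g)).1 x)) (Ico 2 (n + 2) ∪ {x, z.1 x}) fun g k h => by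
    have : χ n g = χ n k := by rw [χ, χ, image_congr fun x hx => h x (mem_union_left _ hx)]
    rw [this]
    apply h
    unfold zp; split_ifs <;> simp).continuous.comp continuous_subtype_val

def U : OpenSubgroup G where
  toSubgroup := MulAction.stabilizer G 0
  isOpen' := ((lc (fun g => g 0) {0} (by simp)).isOpen_fiber 0).preimage continuous_subtype_val

lemma memU (g : G) : g ∈ (U : Set G) ↔ g.1 0 = 0 := Iff.rfl

lemma Uc (h g : G) (p : g ∈ (U : Set G)) : h * g * h⁻¹ ∈ (U : Set G) := by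
  rw [memU] at *
  have a := (h⁻¹.2.1 0).2 (by omega)
  have b := (g.2.1 1).2 (by omega)
  have d := g.1.injective.ne (zero_ne_one (α := ℕ))
  have : g.1 (h⁻¹.1 0) = h⁻¹.1 0 := by
    obtain q | q : h⁻¹.1 0 = 0 ∨ h⁻¹.1 0 = 1 := by omega
    · rw [q, p]
    · rw [q]; omega
  change h.1 (g.1 (h⁻¹.1 0)) = 0
  rw [this]; simp

theorem ncp : ¬ CompactSpace (Out G) := fun _ => by
  letI : TopologicalSpace (Set G) := ⊥
  haveI : DiscreteTopology (Set G) := ⟨rfl⟩
  have c1 : Continuous fun β : Aut G => β.1 '' (U : Set G) := by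
    have : Continuous fun β : MulAut G => β '' ((1 : G) • (U : Set G)) :=
      continuous_iInf_dom (i := U) (continuous_iInf_dom (i := 1) continuous_induced_dom)
    simpa using! this.comp continuous_subtype_val
  let Φ : Out G → Set G := Quotient.lift (fun β : Aut G => β.1 '' (U : Set G)) fun β γ h => by
    obtain ⟨k, hk⟩ := QuotientGroup.leftRel_apply.1 h
    have : γ.1 = β.1 * MulAut.conj k := by rw [hk]; simp
    rw [this, MulAut.coe_mul, Set.image_comp]
    congr 1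
    ext g
    exact ⟨fun p => ⟨_, Uc k⁻¹ g p, by simp [mul_assoc]⟩, fun ⟨u, p, q⟩ => q ▸ Uc k u p⟩
  have fin := (isCompact_range (c1.quotient_lift _ : Continuous Φ)).finite_of_discrete
  refine Set.infinite_of_injective_forall_mem (f := fun n => α (n + 1) '' (U : Set G))
    (fun n m h => by_contra fun ne => ?_) (fun n => Set.mem_range_self (Quotient.mk _ (⟨α _, cα _, cα _⟩ : Aut G))) fin
  obtain ⟨g, g1, g2⟩ := lim (ε := Pi.single (n + 1) 1) ⟨{0, 1}, 1, by simp, by simp, fun S hS hV => by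
    obtain rfl : S = ∅ := eq_empty_of_forall_notMem fun x hx => by
      have := hS hx
      have := hV x hx
      simp at *; omega
    simp⟩
  have f : g 0 = 0 ∧ g 1 = 1 := ⟨g1 0 (by simp), g1 1 (by simp)⟩
  let k : G := ⟨g, two f, _, g2⟩
  have : k ∈ α (m + 1) '' (U : Set G) := ⟨k, f.1, by
    change k * zp (χ _ g) = k
    simp [mk g2, zp, Ne.symm ne]⟩
  obtain ⟨u, p, q⟩ := h.ge this
  obtain rfl : u = k * zp (χ (n + 1) k) := q ▸ (inv (n + 1) u).symm
  rw [memU] at p
  simp [k, mk g2, zp, z, f] at p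

end Pool.Agent.H.MP_94c136_al
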